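import Pool.Agent.TH990.HP.Det3
import Pool.Agent.TH990.FU.Ex3

/-!
The exploration path in a rectangle, stopped at any time: accessible points imply three arms.
-/

set_option autoImplicit false

namespace Pool.Agent.Y997.FB

open H974 H973 H12S Finset H389NS H984P H984N H342P H443B
open MeasureTheory Filter Topology Pool.Agent.W92.DP Pool.Agent.W462.DPL
open Pool.Agent.W424.OD Pool.Agent.W571.DPad Pool.Agent.TH990.FU
open Pool.Agent.TH990.HP (mT det_loc loc_step EB)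
open scoped ENNReal NNReal

/-- The states of the first `m` steps. -/
def Vm (D : Dm) (F : Finset Edg) (m : ℕ) : Set St := {σ | ∃ k ≤ m, D.walk F k = σ}

theorem Vm_inv {D : Dm} {F : Finset Edg} {m : ℕ} {c : ℤ × ℤ} {K : ℕ}
    (h0 : ¬ BX c K (D.walk F 0).1) (hm : ¬ BX c K (D.walk F m).1) (σ : St) (h1 : BX c K σ.1)
    (h2 : BX c K (nxt (D.cfg F) σ).1) : σ ∈ Vm D F m ↔ nxt (D.cfg F) σ ∈ Vm D F m := by
  constructor
  · rintro ⟨k, hk, rfl⟩
    rcases hk.lt_or_eq with h3 | h3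
    · exact ⟨k + 1, h3, clu_walk_succ D F k⟩
    · rw [h3] at h1
      exact absurd h1 hm
  · rintro ⟨k, hk, h⟩
    cases k with
    | zero =>
      rw [← h] at h2
      exact absurd h2 h0
    | succ k =>
      rw [clu_walk_succ] at h
      exact ⟨k, by omega, (nxt_bij (D.cfg F)).1 h⟩

/-- Going on from a visit of a box to the first exit. -/
theorem go_on {D : Dm} {F : Finset Edg} {c : ℤ × ℤ} {K K' : ℕ} (hK : K + 1 ≤ K') (n : ℕ) :
    ∀ i : ℕ, ¬ BX c K (D.walk F (i + n)).1 →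
    ∃ τ : St, ¬ BX c K τ.1 ∧
      Reach (D.cfg F ∩ EB (c.1 - K') (c.1 + K') (c.2 - K') (c.2 + K')) (D.walk F i).1 τ.1 ∧
      Reach (dl '' ((D.cfg F)ᶜ ∩ EB (c.1 - K') (c.1 + K') (c.2 - K') (c.2 + K')))
        (face (D.walk F i)) (face τ) := by
  induction n with
  | zero => exact fun i hi => ⟨_, hi, Reach.refl _ _, Reach.refl _ _⟩
  | succ n ih =>
    intro i hi
    by_cases h : BX c K (D.walk F i).1
    · obtain ⟨h1, h2⟩ := loc_step (C := D.cfg F) (K' := K') hK h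
      rw [← clu_walk_succ] at h1 h2
      obtain ⟨τ, t1, t2, t3⟩ := ih (i + 1) (by rwa [show i + 1 + n = i + (n + 1) by ring])
      exact ⟨τ, t1, h1.trans t2, h2.trans t3⟩
    · exact ⟨_, h, Reach.refl _ _, Reach.refl _ _⟩

/-- **three arms of the path stopped at the time `t`** -/
theorem det3R (R : Rect) {z : ℂ} {r d δ ζ : ℝ} (hδ : 0 < δ) (hδr : δ ≤ r)
    (hd : 2048 * r ≤ d) (hζ : 8 * δ ≤ ζ) (hball : Metric.ball z d ⊆ R.D)
    {F : Finset Edg} {t : unitInterval}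
    (hE : (R.curve δ F).comp (mT t) ∈ Ev3 z r (d / 8) ζ)
    (htip : d / 2 < dist (R.curve δ F t) z) :
    A3v (ctr δ z) (⌈r / δ⌉₊ + 3 + 2) (⌊(d / 8) / (8 * δ)⌋₊ - 2) ↑F ∨
      A3v (ctr δ z) (⌈r / δ⌉₊ + 3 + 2) (⌊(d / 8) / (8 * δ)⌋₊ - 2) (dl '' (↑F : Set Edg)ᶜ) := by
  obtain ⟨⟨s, hs⟩, -, g, hg0, hg1, hg⟩ := hE
  have hr : 0 < r := hδ.trans_le hδr
  have hd0 : 0 < d := by linarith
  set N : ℕ := (R.dm δ).len F with hN
  have hcur : R.curve δ F = pl N (fun k => pos δ ((R.dm δ).walk F k)) := rfl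
  have hs' : dist (R.curve δ F (t * s)) z < r := hs
  have hNpos : 0 < N := by
    by_contra hcon
    have h0 : N = 0 := by omega
    have e : ∀ x, R.curve δ F x = pos δ ((R.dm δ).walk F 0) := by
      intro x
      rw [hcur, h0, pl_apply']
      simp
    rw [e] at hs' htip
    linarith
  set K : ℕ := ⌊(d / 8) / (8 * δ)⌋₊ + ⌈(d / 16) / δ⌉₊ + 9 with hKdef
  have hfl : (⌊(d / 8) / (8 * δ)⌋₊ : ℝ) ≤ (d / 8) / (8 * δ) := Nat.floor_le (by positivity)
  have hcl : (⌈(d / 16) / δ⌉₊ : ℝ) < (d / 16) / δ + 1 := Nat.ceil_lt_add_one (by positivity)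
  have hKr : (K : ℝ) * δ ≤ d / 8 - δ := by
    have h3 : (d / 8) / (8 * δ) * δ = d / 64 := by field_simp; norm_num
    have h4 : (d / 16) / δ * δ = d / 16 := by field_simp
    rw [hKdef]
    push_cast
    nlinarith
  have hst : ∀ k < N, dist (pos δ ((R.dm δ).walk F k)) (pos δ ((R.dm δ).walk F (k + 1))) ≤ δ / 2 :=
    fun k _ => step hδ.le F k
  obtain ⟨i, hiN, ⟨i1, i2⟩, hi⟩ := pl_close' hNpos hst (t * s)
  obtain ⟨m, hmN, ⟨m1, m2⟩, hm⟩ := pl_close' hNpos hst t
  rw [← hcur] at hi hm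
  have hn' : (0:ℝ) < N := by exact_mod_cast hNpos
  have hpos : ∀ k : ℕ, dist (pos δ ((R.dm δ).walk F k)) (zp δ ⟨0, δ⟩ ((R.dm δ).walk F k).1) ≤
      δ / 2 := by
    intro k
    rw [zp_zv]
    exact Pool.Agent.TH990.DP.dist_pos_zv hδ.le _
  -- the box
  obtain ⟨b1, b2, b3, b4⟩ := dom_box R hδ (by linarith) hball
  rw [← vz_ctr hδ] at b1 b2 b3 b4
  have hKf : K ≤ ⌊d / (8 * δ)⌋₊ - 1 := by
    have h1 : (K : ℝ) + 1 ≤ d / (8 * δ) := by
      rw [le_div_iff₀ (by positivity)]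
      nlinarith
    have h2 : K + 1 ≤ ⌊d / (8 * δ)⌋₊ := by
      apply Nat.le_floor
      push_cast
      exact h1
    omega
  have hboxK : ∀ w : Vtx, BX (vz δ ⟨0, δ⟩ z) K w → dist (zp δ ⟨0, δ⟩ w) z ≤ d / 4 + 2 * δ := by
    intro w hw
    have := of_box hδ hw
    linarith
  have h0 : ¬ BX (vz δ ⟨0, δ⟩ z) K ((R.dm δ).walk F 0).1 := by
    rintro ⟨-, h1, h2⟩
    have h3 : ((R.dm δ).walk F 0).1.2 = (R.dm δ).h := rfl
    omega
  have hnt : ¬ BX (vz δ ⟨0, δ⟩ z) K ((R.dm δ).walk F m).1 := by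
    intro h
    have h1 := hboxK _ h
    have h2 := hpos m
    have h4 := dist_triangle (pos δ ((R.dm δ).walk F m)) (zp δ ⟨0, δ⟩ ((R.dm δ).walk F m).1) z
    have h5 := dist_triangle (R.curve δ F t) (pos δ ((R.dm δ).walk F m)) z
    linarith
  -- the index of the visit
  have him : i ≤ m := by
    have h1 : ((t * s : unitInterval) : ℝ) * N ≤ (t : ℝ) * N := by
      refine mul_le_mul_of_nonneg_right ?_ hn'.le
      rw [Set.Icc.coe_mul]
      exact mul_le_of_le_one_right t.2.1 s.2.2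
    have h2 : (i : ℝ) ≤ (m : ℝ) + 1 := by linarith
    have h3 : i ≤ m + 1 := by exact_mod_cast h2
    rcases Nat.lt_or_ge m i with h4 | h4
    · exfalso
      have h5 : i = m + 1 := by omega
      have h6 : (i : ℝ) = (m : ℝ) + 1 := by rw [h5]; push_cast; ring
      have h7 : ((t * s : unitInterval) : ℝ) * N = (t : ℝ) * N := by linarith
      have h8 : (t * s : unitInterval) = t := Subtype.ext (mul_right_cancel₀ hn'.ne' h7)
      rw [h8] at hs'
      linarith
    · exact h4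
  -- the path
  obtain ⟨g', g1, g2, g3, g4⟩ := Pool.Agent.TH990.FU.cut g (z := z) (ρ := d / 16) (by linarith) (by linarith)
  have hNv : ∀ t' u, Near δ ⟨0, δ⟩ (g' t') 3 u → BX (vz δ ⟨0, δ⟩ z) K u ∧
      NV (Vm (R.dm δ) F m) u := by
    intro x u hu
    have h4 := hu.dist hδ
    have h5 : dist (zp δ ⟨0, δ⟩ u) z ≤ d / 16 + 6 * δ := by
      have := dist_triangle_left (zp δ ⟨0, δ⟩ u) z (g' x)
      have := g3 x
      linarith
    constructor
    · have h6 := box_of (r := d / 16 + 4 * δ) hδ (w := u) (z := z) (o := ⟨0, δ⟩) (by linarith)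
      have h7 : ⌈(d / 16 + 4 * δ) / δ⌉₊ + 3 ≤ K := by
        have h8 : (d / 16 + 4 * δ) / δ = (d / 16) / δ + (4 : ℕ) := by
          push_cast
          field_simp
        rw [h8, Nat.ceil_add_natCast (by positivity), hKdef]
        omega
      obtain ⟨⟨q1, q2⟩, q3, q4⟩ := h6
      refine ⟨⟨?_, ?_⟩, ?_, ?_⟩ <;> omega
    · rintro q ⟨k, hk, he⟩
      obtain ⟨y, hy, hx⟩ := Pool.Agent.TH990.DP.pl_node hNpos (fun k => pos δ ((R.dm δ).walk F k)) (k := k)
        (by omega)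
      obtain ⟨t', ht'⟩ := g4 x
      have hkm : (k : ℝ) ≤ m := by exact_mod_cast hk
      have hyt : (y : ℝ) ≤ t := by
        rw [hy, div_le_iff₀ hn']
        linarith
      obtain ⟨v, hv⟩ : ∃ v : unitInterval, t * v = y := by
        rcases eq_or_lt_of_le t.2.1 with h | h
        · refine ⟨0, ?_⟩
          rw [mul_zero]
          apply Subtype.ext
          have h10 : (0:ℝ) ≤ y := y.2.1
          have h11 : ((0 : unitInterval) : ℝ) = 0 := rfl
          rw [h11]
          linarith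
        · refine ⟨⟨y / t, div_nonneg y.2.1 t.2.1, (div_le_one h).2 hyt⟩, ?_⟩
          apply Subtype.ext
          rw [Set.Icc.coe_mul]
          show (t : ℝ) * (y / t) = y
          field_simp
      have h7 := hg v t'
      rw [← ht'] at h7
      have h7' : ζ < dist (g' x) (R.curve δ F y) := by
        rw [← hv]
        exact h7
      have h8 : dist (g' x) (R.curve δ F y) ≤ 6 * δ + δ / 2 := by
        have e1 : R.curve δ F y = pos δ ((R.dm δ).walk F k) := by
          rw [hcur]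
          exact hx
        rw [e1]
        have h9 := hpos k
        rw [he] at h9
        have h10 := dist_triangle_right (g' x) (pos δ ((R.dm δ).walk F k)) (zp δ ⟨0, δ⟩ u)
        have h11 : dist (g' x) (zp δ ⟨0, δ⟩ u) ≤ 6 * δ := by linarith
        rw [he] at h10
        simp only at h9
        rw [he]
        linarith
      linarith
  have hs1 := (sizes (r := r) (d := d / 8) hδ hδr (by linarith)).1
  have hs2 := (sizes (r := r) (d := d / 8) hδ hδr (by linarith)).2.1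
  have hpi : dist (zp δ ⟨0, δ⟩ ((R.dm δ).walk F i).1) z ≤ r + 2 * δ := by
    have h1 := hpos i
    have h2 := dist_triangle_left (zp δ ⟨0, δ⟩ ((R.dm δ).walk F i).1) z
      (pos δ ((R.dm δ).walk F i))
    have h3 := dist_triangle_left (pos δ ((R.dm δ).walk F i)) z (R.curve δ F (t * s))
    linarith
  obtain ⟨τ, t1, t2, t3⟩ := go_on (D := R.dm δ) (F := F) (c := vz δ ⟨0, δ⟩ z)
    (K := ⌊(d / 8) / (8 * δ)⌋₊ - 1) (K' := K) (by omega) (m - i) i (by
      rw [Nat.add_sub_cancel' him]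
      intro h
      obtain ⟨⟨q1, q2⟩, q3, q4⟩ := h
      refine hnt ⟨⟨?_, ?_⟩, ?_, ?_⟩ <;> omega)
  have hmain := det_loc (d := d / 8) hδ hδr (by linarith) (C := (R.dm δ).cfg F)
    (A := Vm (R.dm δ) F m) (K := K)
    (by omega) (fun σ a b => Vm_inv h0 hnt σ a b) (g := g') (by rw [g1]; exact hg0)
    (by rw [g2]; linarith) hNv (σ := (R.dm δ).walk F i) (τ := τ) ⟨i, him, rfl⟩ hpi t1 t2 t3
  rw [vz_ctr hδ] at hmain b1 b2 b3 b4
  rcases hmain with h | h
  · left
    rwa [cfg_congr (by omega) (by omega) (by omega)] at h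
  · right
    rwa [cfg_congr_d (by omega) (by omega) (by omega)] at h

end Pool.Agent.Y997.FB
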