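import Pool.Agent.Y997.FB.Det
import Pool.Agent.TH990.HP.Fix

/-!
The exploration path in a rectangle: the sides of the past in a fixed set.
-/

set_option autoImplicit false

namespace Pool.Agent.Y997.FB

open H974 H12S Finset H389NS H984P H984N H342P Pool.Agent.TH990.FU
open MeasureTheory Filter Topology Pool.Agent.W92.DP Pool.Agent.W462.DPL Pool.Agent.W424.OD
open Pool.Agent.TH990.HP (mT E3 E3_open AccT big_pow)
open scoped ENNReal NNReal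

/-- probability of an accessible point of the past -/
theorem prob3R (hU : U3) (R : Rect) : ∃ C : ℝ, 0 < C ∧ ∃ δ0 : ℝ, 0 < δ0 ∧
    ∀ (z : ℂ) (r d δ ζ : ℝ), 0 < r → r ≤ d → Metric.ball z d ⊆ R.D → 0 < δ → δ ≤ r → δ ≤ δ0 →
      8 * δ ≤ ζ → (R.law δ : Measure X) ((fun p : X => p.1) ⁻¹' E3 z r d ζ) ≤
        ENNReal.ofReal (C * (r / d) ^ (2/3 : ℝ)) := by
  obtain ⟨κ, S, δ0, hκ, hS, hδ0, hδ1, hsh⟩ := R.shape
  obtain ⟨Cd, hCd, hD'⟩ := u3d hU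
  obtain ⟨Ca, hCa, hA'⟩ := hU
  refine ⟨(Ca + Cd + 1) * 2048 ^ (2/3 : ℝ), by positivity, δ0, hδ0, ?_⟩
  intro z r d δ ζ hr hrd hball hδ hδr hδδ hζ
  have hd0 : 0 < d := hr.trans_le hrd
  rw [R.law_apply δ ((E3_open z r d ζ).preimage continuous_fst).measurableSet]
  apply ENNReal.ofReal_le_ofReal
  by_cases h256 : 2048 * r ≤ d
  swap
  · refine (Pr_le_one okh _ _).trans ?_
    exact big_pow hr hrd (by linarith) (by norm_num) (by norm_num) h256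
  obtain ⟨s1, s2, s3, s4⟩ := sizes (r := r) (d := d / 8) hδ hδr (by linarith)
  obtain ⟨b1, b2, b3, b4⟩ := dom_box R hδ (by linarith) hball
  have hle : ⌊(d / 8) / (8 * δ)⌋₊ ≤ ⌊d / (8 * δ)⌋₊ := by
    apply Nat.floor_le_floor
    gcongr
    linarith
  have hsub : H12S.blk (ctr δ z) ⌊d / (8 * δ)⌋₊ ⊆ (R.dm δ).edges :=
    RE_subset b1.le b2.le b3.le b4.le
  have hsub1 : ∀ k : ℕ, k ≤ ⌊(d / 8) / (8 * δ)⌋₊ → H12S.blk (ctr δ z) k ⊆ (R.dm δ).edges := by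
    intro k hk
    refine (RE_subset ?_ ?_ ?_ ?_).trans hsub <;> omega
  have h1 := hA' (ctr δ z) (⌈r / δ⌉₊ + 3 + 2) (⌊(d / 8) / (8 * δ)⌋₊ - 2) (by omega) s2
    (R.dm δ).edges (hsub1 _ (by omega))
  have h2 := hD' (ctr δ z) (⌈r / δ⌉₊ + 3 + 2) (⌊(d / 8) / (8 * δ)⌋₊ - 2) (by omega) s2
    (R.dm δ).edges (hsub1 _ (by omega))
  have hmono : R.prob δ (fun F => (R.curve δ F, R.time δ F) ∈
        ((fun p : X => p.1) ⁻¹' E3 z r d ζ)) ≤
      PQ (1/2) (R.dm δ).edges (fun F =>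
        A3v (ctr δ z) (⌈r / δ⌉₊ + 3 + 2) (⌊(d / 8) / (8 * δ)⌋₊ - 2) ↑F ∨
        A3v (ctr δ z) (⌈r / δ⌉₊ + 3 + 2) (⌊(d / 8) / (8 * δ)⌋₊ - 2) (dl '' (↑F : Set Edg)ᶜ)) := by
    apply Pr_mono okh
    rintro F - ⟨t, hE, htip⟩
    exact det3R R hδ hδr h256 hζ hball hE htip
  have hor := Pr_or_le okh (R.dm δ).edges
    (fun F => A3v (ctr δ z) (⌈r / δ⌉₊ + 3 + 2) (⌊(d / 8) / (8 * δ)⌋₊ - 2) ↑F)
    (fun F => A3v (ctr δ z) (⌈r / δ⌉₊ + 3 + 2) (⌊(d / 8) / (8 * δ)⌋₊ - 2)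
      (dl '' (↑F : Set Edg)ᶜ))
  have hpow : (((⌈r / δ⌉₊ + 3 + 2 : ℕ) : ℝ) /
      ((⌊(d / 8) / (8 * δ)⌋₊ - 2 : ℕ) : ℝ)) ^ (2/3 : ℝ) ≤ (2048 * (r / d)) ^ (2/3 : ℝ) := by
    refine Real.rpow_le_rpow (by positivity) (s4.trans (le_of_eq ?_)) (by norm_num)
    field_simp
    norm_num
  have h3 := mul_le_mul_of_nonneg_left hpow hCa.le
  have h4 := mul_le_mul_of_nonneg_left hpow hCd.le
  refine (hmono.trans (hor.trans (add_le_add (h1.trans h3) (h2.trans h4)))).trans ?_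
  rw [Real.mul_rpow (by norm_num) (by positivity)]
  have hy : 0 ≤ (2048:ℝ) ^ (2/3 : ℝ) * (r / d) ^ (2/3 : ℝ) := by positivity
  nlinarith

/-- accessible points of the past in a fixed set, away from the current point -/
theorem fix3R (hU : U3) (R : Rect) {δ : ℕ → ℝ} (hδ : ∀ i, 0 < δ i) (hlim : Tendsto δ atTop (𝓝 0))
    {μ : ProbabilityMeasure X} (hμ : Tendsto (fun i => R.law (δ i)) atTop (𝓝 μ)) (T : Set ℂ) :
    ∀ᵐ p ∂(μ : Measure X),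
      dimH ((⋃ i : ℕ, AccT (1 / ((i:ℝ) + 1)) p.1) ∩ T ∩ R.D) ≤ dimH T - ENNReal.ofReal (2/3) ∧
      (μH[2/3] T = 0 → (⋃ i : ℕ, AccT (1 / ((i:ℝ) + 1)) p.1) ∩ T ∩ R.D = ∅) := by
  obtain ⟨C, hC, δ0, hδ0, hP⟩ := prob3R hU R
  have hO : ∀ z r d ζ, IsOpen ((fun p : X => p.1) ⁻¹' E3 z r d ζ) := fun z r d ζ =>
    (E3_open z r d ζ).preimage continuous_fst
  refine fixed_dim (μ := (μ : Measure X))
    (E := fun d z r => ⋃ j : ℕ, (fun p : X => p.1) ⁻¹' E3 z r d (1 / ((j:ℝ) + 1)))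
    (fun d z r => (isOpen_iUnion fun j => hO _ _ _ _).measurableSet)
    (S := fun η p => AccT η p.1) ?_ (Pool.Agent.TH990.FU.D_open R) hC.le
    (show (0:ℝ) < 2/3 by norm_num) ?_ T
  · rintro η d z r w p hdη hrd ⟨t, hw, hw1⟩ hwz
    have hr0 : 0 < r := dist_nonneg.trans_lt hwz
    have h6 := dist_triangle (p.1 t) z w
    rw [dist_comm z w] at h6
    obtain ⟨j, hj⟩ := Set.mem_iUnion.1 (E3U_of (ρ := d / 8) hw hwz (by linarith))
    exact Set.mem_iUnion.2 ⟨j, t, hj, by linarith⟩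
  · intro z r d hr hrd hball
    show (μ : Measure X) (⋃ j : ℕ, (fun p : X => p.1) ⁻¹' E3 z r d (1 / ((j:ℝ) + 1))) ≤ _
    have hmono : Monotone (fun j : ℕ => (fun p : X => p.1) ⁻¹' E3 z r d (1 / ((j:ℝ) + 1))) := by
      rintro i j hij p ⟨t, hf, hf'⟩
      exact ⟨t, Ev3_anti (Nat.one_div_le_one_div hij) hf, hf'⟩
    rw [hmono.measure_iUnion]
    refine iSup_le fun j => ?_
    refine (ProbabilityMeasure.le_liminf_measure_open_of_tendsto hμ (hO _ _ _ _)).trans ?_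
    refine liminf_le_of_frequently_le (Eventually.frequently ?_)
    have hpos : 0 < min (min r δ0) (1 / ((j:ℝ) + 1) / 8) :=
      lt_min (lt_min hr hδ0) (by positivity)
    filter_upwards [hlim.eventually (gt_mem_nhds hpos)] with i hi
    have k1 := hi.le.trans ((min_le_left _ _).trans (min_le_left _ _))
    have k2 := hi.le.trans ((min_le_left _ _).trans (min_le_right _ _))
    have k3 := hi.le.trans (min_le_right _ _)
    exact hP z r d (δ i) _ hr hrd hball (hδ i) k1 k2 (by linarith)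

end Pool.Agent.Y997.FB
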